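import Mathlib
import Pool.Agent.X200.SacMain

/-!
MP_cc0654_lc, Q1 and Q2: under CH there is a subgroup `G` of `ℤ ^ ℕ` of size continuum such that
`G` (and every finite power of `G`) satisfies `S_1(B_Ω, B_Γ)` and `S_1(Ω, Γ)`.
-/

set_option autoImplicit false

namespace Pool.Agent.Results.MP_cc0654_lc.GammaGroups

open Set

/-- `ω`-covers of `Y`: covers with `Y ∉ 𝒰` such that every finite subset of `Y` is contained in a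
member of `𝒰`. -/
def IsOmega {Y : Type} (𝒰 : Set (Set Y)) : Prop :=
  ⋃₀ 𝒰 = univ ∧ univ ∉ 𝒰 ∧ ∀ F : Set Y, F.Finite → ∃ U ∈ 𝒰, F ⊆ U

/-- `γ`-covers of `Y`: infinite covers such that every point of `Y` belongs to all but finitely
many members. -/
def IsGamma {Y : Type} (𝒰 : Set (Set Y)) : Prop :=
  ⋃₀ 𝒰 = univ ∧ 𝒰.Infinite ∧ ∀ y : Y, {U ∈ 𝒰 | y ∉ U}.Finite

/-- Countable families of Borel subsets of `Y`. -/
def BorelFam (Y : Type) [TopologicalSpace Y] : Set (Set (Set Y)) :=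
  {𝒰 | 𝒰.Countable ∧ ∀ U ∈ 𝒰, @MeasurableSet Y (borel Y) U}

/-- Families of open subsets of `Y`. -/
def OpenFam (Y : Type) [TopologicalSpace Y] : Set (Set (Set Y)) := {𝒰 | ∀ U ∈ 𝒰, IsOpen U}

/-- The selection principle `S_1(𝒜, ℬ)`. -/
def S1 {Y : Type} (𝒜 ℬ : Set (Set (Set Y))) : Prop :=
  ∀ 𝒰 : ℕ → Set (Set Y), (∀ n, 𝒰 n ∈ 𝒜) → ∃ U : ℕ → Set Y, (∀ n, U n ∈ 𝒰 n) ∧ range U ∈ ℬ

/-- `Y` satisfies `S_1(B_Ω, B_Γ)`. -/
def S1Borel (Y : Type) [TopologicalSpace Y] : Prop :=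
  S1 {𝒰 ∈ BorelFam Y | IsOmega 𝒰} {𝒰 ∈ BorelFam Y | IsGamma 𝒰}

/-- `Y` satisfies `S_1(Ω, Γ)`. -/
def S1Open (Y : Type) [TopologicalSpace Y] : Prop :=
  S1 {𝒰 ∈ OpenFam Y | IsOmega 𝒰} {𝒰 ∈ OpenFam Y | IsGamma 𝒰}

theorem result (hCH : Cardinal.continuum.{0} = Cardinal.aleph 1) :
    ∃ G : AddSubgroup (ℕ → ℤ), Cardinal.mk G = Cardinal.continuum ∧ S1Borel G ∧ S1Open G ∧
      ∀ p : ℕ, S1Borel (Fin p → G) ∧ S1Open (Fin p → G) :=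
  Pool.Agent.X200.Sac.main hCH

end Pool.Agent.Results.MP_cc0654_lc.GammaGroups
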